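import Pool.Agent.H12.CSP.S.Helper111.EN.Basic

/-!
# Finitely generated nilpotent groups are residually finite `r`-groups, `r` outside `π`

`krull` was proved by helper836, `resid_core` by helper400, `resid` by helper679 (lemma jobs).
-/

set_option autoImplicit false

universe u v

open scoped commutatorElement

namespace Pool.Agent.Helper111.EN

theorem krull {A : Type u} [CommGroup A] [Group.FG A] (z : A) (r : ℕ)
    (h : ∀ k : ℕ, ∃ y : A, y ^ (r ^ k) = z) : ∃ b : ℤ, z ^ ((r : ℤ) * b - 1) = 1 := by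
  have hfg : AddGroup.FG (Additive A) := inferInstance
  have hfin : Module.Finite ℤ (Additive A) := Module.Finite.iff_addGroup_fg.2 hfg
  have hmem : (Additive.ofMul z : Additive A) ∈
      (⨅ i : ℕ, (Ideal.span {(r : ℤ)}) ^ i • (⊤ : Submodule ℤ (Additive A))) := by
    rw [Submodule.mem_iInf]
    intro k
    obtain ⟨y, hy⟩ := h k
    have h1 : (Additive.ofMul z : Additive A) = ((r : ℤ) ^ k) • (Additive.ofMul y : Additive A) := by
      rw [← hy]
      have h2 : ((r : ℤ) ^ k) = ((r ^ k : ℕ) : ℤ) := by push_cast; rfl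
      rw [h2, natCast_zsmul]
      rfl
    rw [h1, Ideal.span_singleton_pow]
    exact Submodule.smul_mem_smul (Ideal.mem_span_singleton_self _) Submodule.mem_top
  rw [Ideal.mem_iInf_smul_pow_eq_bot_iff] at hmem
  obtain ⟨⟨a, ha⟩, hz⟩ := hmem
  rw [Ideal.mem_span_singleton] at ha
  obtain ⟨b, rfl⟩ := ha
  refine ⟨b, ?_⟩
  have h3 : z ^ ((r : ℤ) * b) = z := hz
  rw [zpow_sub, h3, zpow_one, mul_inv_cancel]





theorem resid_core {K : Type u} [Group K] [Group.IsNilpotent K] [Group.FG K] (π : Set ℕ)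
    (hπ : ∀ p ∈ π, p.Prime) (q : ℕ) (hq : q.Prime) (hqπ : q ∉ π)
    (htf : ∀ p ∈ π, ∀ x : K, x ^ p = 1 → x = 1) (z : K) (hz : z ≠ 1)
    (hmin : ∀ M : Subgroup K, M.Normal → M ≠ ⊥ →
      (∀ p ∈ π, ∀ x : K, x ^ p ∈ M → x ∈ M) → z ∈ M) :
    ∃ r : ℕ, r.Prime ∧ r ∉ π ∧ ∃ k : ℕ, ∀ x ∈ Subgroup.center K, x ^ r ^ k = 1 := by
  haveI : Nontrivial K := ⟨⟨z, 1, hz⟩⟩
  obtain ⟨Z, hZ⟩ : ∃ Z : Subgroup K, Z = Subgroup.center K := ⟨_, rfl⟩
  have hroot : ∀ p ∈ π, ∀ x : K, x ^ p ∈ Subgroup.center K → x ∈ Subgroup.center K :=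
    fun p hp x hx => center_root p (htf p hp) x hx
  have hzZ : z ∈ Subgroup.center K :=
    hmin (Subgroup.center K) inferInstance (Group.IsNilpotent.center_ne_bot K) hroot
  -- step (2)
  have h2 : ∀ r : ℕ, r.Prime → r ∉ π → ∀ k : ℕ,
      (∀ x ∈ Subgroup.center K, x ^ r ^ k = 1) ∨ ∃ y ∈ Subgroup.center K, y ^ (r ^ k) = z := by
    intro r hr hrπ k
    let M : Subgroup K :=
      { carrier := {x | ∃ y ∈ Subgroup.center K, y ^ (r ^ k) = x}
        one_mem' := ⟨1, Subgroup.one_mem _, one_pow _⟩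
        mul_mem' := by
          rintro a b ⟨y1, hy1, rfl⟩ ⟨y2, hy2, rfl⟩
          refine ⟨y1 * y2, Subgroup.mul_mem _ hy1 hy2, ?_⟩
          have hc : Commute y1 y2 := (Subgroup.mem_center_iff.mp hy2 y1)
          exact hc.mul_pow _
        inv_mem' := by
          rintro a ⟨y, hy, rfl⟩
          exact ⟨y⁻¹, Subgroup.inv_mem _ hy, inv_pow _ _⟩ }
    have hMZ : ∀ x ∈ M, x ∈ Subgroup.center K := by
      rintro x ⟨y, hy, rfl⟩
      exact Subgroup.pow_mem _ hy _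
    by_cases hM : M = ⊥
    · left
      intro x hx
      have h1 : x ^ r ^ k ∈ M := ⟨x, hx, rfl⟩
      rw [hM] at h1
      exact Subgroup.mem_bot.mp h1
    · right
      have hMn : M.Normal := by
        refine ⟨fun n hn g => ?_⟩
        have h1 := Subgroup.mem_center_iff.mp (hMZ n hn) g
        rw [h1, mul_assoc, mul_inv_cancel, mul_one]
        exact hn
      have h3 : z ∈ M := by
        apply hmin M hMn hM
        intro p hp x hx
        have hxZ : x ∈ Subgroup.center K := hroot p hp x (hMZ _ hx)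
        obtain ⟨y, hy, hyx⟩ := hx
        have hpr : p.Coprime (r ^ k) := by
          apply Nat.Coprime.pow_right
          rw [Nat.coprime_primes (hπ p hp) hr]
          rintro rfl
          exact hrπ hp
        have hbz : (1 : ℤ) = (p : ℤ) * p.gcdA (r ^ k) + ((r ^ k : ℕ) : ℤ) * p.gcdB (r ^ k) := by
          have := Nat.gcd_eq_gcd_ab p (r ^ k)
          rw [hpr] at this
          exact_mod_cast this
        refine ⟨y ^ (p.gcdA (r ^ k)) * x ^ (p.gcdB (r ^ k)),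
          Subgroup.mul_mem _ (Subgroup.zpow_mem _ hy _) (Subgroup.zpow_mem _ hxZ _), ?_⟩
        have hc : Commute (y ^ (p.gcdA (r ^ k))) (x ^ (p.gcdB (r ^ k))) := by
          apply Commute.zpow_zpow
          exact (Subgroup.mem_center_iff.mp hxZ y)
        rw [hc.mul_pow]
        have e1 : (y ^ (p.gcdA (r ^ k))) ^ (r ^ k) = x ^ ((p : ℤ) * p.gcdA (r ^ k)) := by
          rw [← zpow_natCast, ← zpow_mul, mul_comm, zpow_mul, zpow_natCast, hyx, zpow_mul, zpow_natCast]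
        have e2 : (x ^ (p.gcdB (r ^ k))) ^ (r ^ k) = x ^ (((r ^ k : ℕ) : ℤ) * p.gcdB (r ^ k)) := by
          rw [← zpow_natCast, ← zpow_mul, mul_comm]
        rw [e1, e2, ← zpow_add, ← hbz, zpow_one]
      exact h3
  -- step (3)
  haveI hfg : Group.FG (Subgroup.center K) := (Group.fg_iff_subgroup_fg _).mpr center_fg
  letI hcg : CommGroup (Subgroup.center K) :=
    { (inferInstance : Group (Subgroup.center K)) with
      mul_comm := fun a b => Subtype.ext (Subgroup.mem_center_iff.mp b.2 a.1) }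
  have h3 : ∀ r : ℕ, r.Prime → r ∉ π →
      (∃ k : ℕ, ∀ x ∈ Subgroup.center K, x ^ r ^ k = 1) ∨ ∃ b : ℤ, z ^ ((r : ℤ) * b - 1) = 1 := by
    intro r hr hrπ
    by_cases hdone : ∃ k : ℕ, ∀ x ∈ Subgroup.center K, x ^ r ^ k = 1
    · exact Or.inl hdone
    · right
      obtain ⟨b, hb⟩ := @krull (Subgroup.center K) hcg hfg ⟨z, hzZ⟩ r (by
        intro k
        rcases h2 r hr hrπ k with h | ⟨y, hy, hyz⟩
        · exact absurd ⟨k, h⟩ hdone
        · exact ⟨⟨y, hy⟩, Subtype.ext hyz⟩)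
      refine ⟨b, ?_⟩
      have := congrArg Subtype.val hb
      simpa using this
  rcases h3 q hq hqπ with h | ⟨b, hb⟩
  · exact ⟨q, hq, hqπ, h⟩
  have hne : (q : ℤ) * b - 1 ≠ 0 := by
    intro h
    have h1 : (q : ℤ) ∣ 1 := ⟨b, by linarith⟩
    have h4 : q ∣ 1 := by exact_mod_cast h1
    exact hq.one_lt.ne' (Nat.dvd_one.mp h4)
  have hfin : IsOfFinOrder z := isOfFinOrder_iff_zpow_eq_one.mpr ⟨_, hne, hb⟩
  have hm0 : 0 < orderOf z := hfin.orderOf_pos
  have hm1 : orderOf z ≠ 1 := fun h => hz (orderOf_eq_one_iff.mp h)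
  obtain ⟨r, hrdef⟩ : ∃ r, r = (orderOf z).minFac := ⟨_, rfl⟩
  have hr : r.Prime := by rw [hrdef]; exact Nat.minFac_prime hm1
  have hrm : r ∣ orderOf z := by rw [hrdef]; exact Nat.minFac_dvd _
  have hrπ : r ∉ π := by
    intro hrp
    obtain ⟨t, ht⟩ := hrm
    have h4 : (z ^ t) ^ r = 1 := by
      rw [← pow_mul, mul_comm, ← ht]
      exact pow_orderOf_eq_one z
    have h5 : z ^ t = 1 := htf r hrp _ h4
    have h6 : orderOf z ∣ t := orderOf_dvd_of_pow_eq_one h5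
    have ht0 : 0 < t := by
      rcases Nat.eq_zero_or_pos t with h | h
      · rw [h, mul_zero] at ht; omega
      · exact h
    have h7 := Nat.le_of_dvd ht0 h6
    have h8 := hr.two_le
    nlinarith
  rcases h3 r hr hrπ with h | ⟨b', hb'⟩
  · exact ⟨r, hr, hrπ, h⟩
  exfalso
  have h4 : ((orderOf z : ℕ) : ℤ) ∣ (r : ℤ) * b' - 1 := orderOf_dvd_iff_zpow_eq_one.mpr hb'
  have h5 : (r : ℤ) ∣ (r : ℤ) * b' - 1 := (Int.natCast_dvd_natCast.mpr hrm).trans h4
  have h6 : (r : ℤ) ∣ 1 := by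
    have := dvd_sub (dvd_mul_right (r : ℤ) b') h5
    simpa using this
  have h7 : r ∣ 1 := by exact_mod_cast h6
  exact hr.one_lt.ne' (Nat.dvd_one.mp h7)





theorem resid_zorn' {K : Type u} [Group K] (π : Set ℕ)
    (htf : ∀ p ∈ π, ∀ x : K, x ^ p = 1 → x = 1) (w : K) (hw : w ≠ 1) :
    ∃ N : Subgroup K, N.Normal ∧ w ∉ N ∧ (∀ p ∈ π, ∀ x : K, x ^ p ∈ N → x ∈ N) ∧
      ∀ M : Subgroup K, M.Normal → N ≤ M → w ∉ M → (∀ p ∈ π, ∀ x : K, x ^ p ∈ M → x ∈ M) →
        M = N := by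
  obtain ⟨L, -, hL⟩ := zorn_le_nonempty₀
    {L : Subgroup K | L.Normal ∧ w ∉ L ∧ ∀ p ∈ π, ∀ x : K, x ^ p ∈ L → x ∈ L} (by
    intro c hc hch y hy
    have hdir : DirectedOn (· ≤ ·) c := hch.directedOn
    have hmem : ∀ x, x ∈ sSup c ↔ ∃ s ∈ c, x ∈ s := fun x =>
      Subgroup.mem_sSup_of_directedOn ⟨y, hy⟩ hdir
    refine ⟨sSup c, ⟨⟨?_⟩, ?_, ?_⟩, fun a ha => le_sSup ha⟩
    · intro n hn g
      obtain ⟨s, hs, hns⟩ := (hmem n).1 hn
      exact (hmem _).2 ⟨s, hs, (hc hs).1.conj_mem n hns g⟩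
    · intro hzc
      obtain ⟨s, hs, hzs⟩ := (hmem w).1 hzc
      exact (hc hs).2.1 hzs
    · intro p hp x hx
      obtain ⟨s, hs, hxs⟩ := (hmem _).1 hx
      exact (hmem _).2 ⟨s, hs, (hc hs).2.2 p hp x hxs⟩) ⊥
    ⟨inferInstance, fun h => hw (Subgroup.mem_bot.1 h), fun p hp x hx =>
      Subgroup.mem_bot.2 (htf p hp x (Subgroup.mem_bot.1 hx))⟩
  refine ⟨L, hL.prop.1, hL.prop.2.1, hL.prop.2.2, ?_⟩
  intro M hM hLM hzM hMp
  exact le_antisymm (hL.le_of_ge ⟨hM, hzM, hMp⟩ hLM) hLM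

theorem resid {K : Type u} [Group K] [Group.IsNilpotent K] [Group.FG K] (π : Set ℕ)
    (hπ : ∀ p ∈ π, p.Prime) (q : ℕ) (hq : q.Prime) (hqπ : q ∉ π)
    (htf : ∀ p ∈ π, ∀ x : K, x ^ p = 1 → x = 1) (w : K) (hw : w ≠ 1) :
    ∃ r : ℕ, r.Prime ∧ r ∉ π ∧ ∃ (N : Subgroup K) (_ : N.Normal),
      w ∉ N ∧ Finite (K ⧸ N) ∧ IsPGroup r (K ⧸ N) := by
  obtain ⟨N, hN, hwN, hNp, hmax⟩ := resid_zorn' π htf w hw
  have hker : ∀ x : K, (QuotientGroup.mk' N) x = 1 ↔ x ∈ N := by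
    intro x
    rw [← MonoidHom.mem_ker, QuotientGroup.ker_mk']
  have hfg : Group.FG (K ⧸ N) := QuotientGroup.fg _
  have hnil : Group.IsNilpotent (K ⧸ N) := inferInstance
  obtain ⟨r, hr, hrπ, k, hk⟩ := resid_core (K := K ⧸ N) π hπ q hq hqπ (by
      intro p hp xb hx
      obtain ⟨x, rfl⟩ := QuotientGroup.mk'_surjective N xb
      rw [← map_pow, hker] at hx
      exact (hker x).2 (hNp p hp x hx)) (QuotientGroup.mk' N w)
    (fun h => hwN ((hker w).1 h)) (by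
      intro M hM hM1 hMp
      by_contra hwM
      apply hM1
      have hMN : M.comap (QuotientGroup.mk' N) = N := by
        refine hmax _ (hM.comap _) ?_ ?_ ?_
        · intro x hx
          rw [Subgroup.mem_comap, (hker x).2 hx]
          exact M.one_mem
        · intro h
          exact hwM (Subgroup.mem_comap.1 h)
        · intro p hp x hx
          rw [Subgroup.mem_comap, map_pow] at hx
          exact Subgroup.mem_comap.2 (hMp p hp _ hx)
      rw [eq_bot_iff]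
      intro m hm
      obtain ⟨x, rfl⟩ := QuotientGroup.mk'_surjective N m
      have hx : x ∈ M.comap (QuotientGroup.mk' N) := hm
      rw [hMN] at hx
      exact Subgroup.mem_bot.2 ((hker x).2 hx))
  have htors : ∀ x : K ⧸ N, ∃ e : ℕ, x ^ r ^ e = 1 :=
    resid_tors r hr.pos (fun x hx => ⟨k, hk x hx⟩)
  refine ⟨r, hr, hrπ, N, hN, hwN, ?_, ?_⟩
  · refine finite_of_fg_nilpotent _ ?_
    intro g
    obtain ⟨e, he⟩ := htors g
    exact isOfFinOrder_iff_pow_eq_one.2 ⟨r ^ e, pow_pos hr.pos e, he⟩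
  · exact htors


end Pool.Agent.Helper111.EN
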