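import Mathlib

/-!
# Subgroups of finitely generated nilpotent groups are finitely generated

Copied (with a new namespace) from
`Pool/Agent/Results/MP_d5e6ed_al/NilpotentByAbelianByFinite.lean`.
-/

set_option autoImplicit false

namespace Pool.Agent.Helper111.EN.NSc

universe u v

open scoped commutatorElement

def NS {G : Type*} [Group G] (H : Subgroup G) : Prop := ∀ K : Subgroup G, K ≤ H → K.FG

variable {G : Type*} [Group G] {L : Type*} [Group L]

lemma NS.mono {H K : Subgroup G} (h : NS H) (hK : K ≤ H) : NS K := fun J hJ => h J (hJ.trans hK)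

lemma NS.fg {H : Subgroup G} (h : NS H) : H.FG := h H le_rfl

lemma fg_map {K : Subgroup G} (h : K.FG) (f : G →* L) : (K.map f).FG := by
  classical
  obtain ⟨S, hS⟩ := h
  refine ⟨S.image f, ?_⟩
  rw [← hS, MonoidHom.map_closure, Finset.coe_image]

lemma NS.map {H : Subgroup G} (h : NS H) (f : G →* L) : NS (H.map f) := by
  intro K hK
  have h1 : K = (K.comap f ⊓ H).map f := by
    apply le_antisymm
    · intro x hx
      obtain ⟨y, hy, rfl⟩ := hK hx
      exact ⟨y, ⟨hx, hy⟩, rfl⟩
    · rintro _ ⟨y, hy, rfl⟩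
      exact hy.1
  rw [h1]
  exact fg_map (h _ inf_le_right) f

lemma fg_of_ext (f : G →* L) (K : Subgroup G) (h1 : (K.map f).FG) (h2 : (K ⊓ f.ker).FG) :
    K.FG := by
  classical
  obtain ⟨S, hS⟩ := h1
  obtain ⟨T, hT⟩ := h2
  have hSK : ∀ s ∈ S, ∃ k ∈ K, f k = s := by
    intro s hs
    have : s ∈ K.map f := by rw [← hS]; exact Subgroup.subset_closure hs
    exact this
  choose! k hk hfk using hSK
  refine ⟨S.image k ∪ T, ?_⟩
  have hle : Subgroup.closure (↑(S.image k ∪ T) : Set G) ≤ K := by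
    rw [Subgroup.closure_le]
    intro x hx
    simp only [Finset.coe_union, Finset.coe_image, Set.mem_union, Set.mem_image,
      Finset.mem_coe] at hx
    rcases hx with ⟨s, hs, rfl⟩ | hx
    · exact hk s hs
    · have : x ∈ K ⊓ f.ker := by rw [← hT]; exact Subgroup.subset_closure hx
      exact this.1
  apply le_antisymm hle
  intro x hx
  set D := Subgroup.closure (↑(S.image k ∪ T) : Set G) with hD
  have h3 : f x ∈ D.map f := by
    have h4 : f x ∈ Subgroup.closure (S : Set L) := by rw [hS]; exact ⟨x, hx, rfl⟩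
    refine (Subgroup.closure_le (D.map f)).2 ?_ h4
    intro s hs
    refine ⟨k s, Subgroup.subset_closure ?_, hfk s hs⟩
    simp only [Finset.coe_union, Finset.coe_image, Set.mem_union, Set.mem_image,
      Finset.mem_coe]
    exact Or.inl ⟨s, hs, rfl⟩
  obtain ⟨d, hd, hfd⟩ := h3
  have h5 : d⁻¹ * x ∈ K ⊓ f.ker := by
    refine Subgroup.mem_inf.2 ⟨K.mul_mem (K.inv_mem (hle hd)) hx, ?_⟩
    rw [MonoidHom.mem_ker, map_mul, map_inv, hfd]; simp
  rw [← hT] at h5
  have h6 : d⁻¹ * x ∈ D := by
    refine (Subgroup.closure_mono ?_) h5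
    simp
  have : x = d * (d⁻¹ * x) := by group
  rw [this]
  exact D.mul_mem hd h6

lemma NS_ext (f : G →* L) (H : Subgroup G) (h1 : NS (H.map f)) (h2 : NS (H ⊓ f.ker)) :
    NS H := by
  intro K hK
  exact fg_of_ext f K (h1 _ (Subgroup.map_mono hK)) (h2 _ (inf_le_inf_right _ hK))

/-- all subgroups of a finitely generated commutative group are finitely generated -/
lemma NS_of_comm (A : Type*) [CommGroup A] [hA : Group.FG A] : NS (⊤ : Subgroup A) := by
  intro K _
  have h1 : AddGroup.FG (Additive A) := GroupFG.iff_add_fg.1 hA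
  have h2 : Module.Finite ℤ (Additive A) := Module.Finite.iff_addGroup_fg.2 h1
  have h3 : IsNoetherian ℤ (Additive A) := inferInstance
  have h4 := h3.noetherian (AddSubgroup.toIntSubmodule (Subgroup.toAddSubgroup K))
  rw [Submodule.fg_iff_addSubgroup_fg] at h4
  rw [AddSubgroup.toIntSubmodule_toAddSubgroup] at h4
  exact (Subgroup.fg_iff_add_fg K).2 h4

lemma fg_map_subtype_iff (H : Subgroup G) (K : Subgroup H) : (K.map H.subtype).FG ↔ K.FG := by
  constructor
  · intro h
    have e := K.equivMapOfInjective H.subtype H.subtype_injective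
    have h1 : Group.FG (K.map H.subtype) := (Group.fg_iff_subgroup_fg _).2 h
    have h2 : Group.FG K := Group.fg_of_surjective (f := e.symm.toMonoidHom) e.symm.surjective
    exact (Group.fg_iff_subgroup_fg _).1 h2
  · intro h
    exact fg_map h _

lemma NS_top_iff (H : Subgroup G) : NS (⊤ : Subgroup H) ↔ NS H := by
  constructor
  · intro h K hK
    have h1 := h (K.subgroupOf H) le_top
    have h2 := (fg_map_subtype_iff H _).2 h1
    rwa [Subgroup.subgroupOf_map_subtype, inf_eq_left.2 hK] at h2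
  · intro h K _
    rw [← fg_map_subtype_iff]
    refine h _ ?_
    rintro _ ⟨x, _, rfl⟩
    exact x.2


/-! ### finitely generated nilpotent groups -/

/-- If `L = ⁅M, ⊤⁆` is central and `M` is generated modulo `L` by a finite set then `L` is
finitely generated. -/
lemma fg_commutator_central {G : Type*} [Group G] (hG : Group.FG G) (M : Subgroup G)
    (hc : ⁅M, (⊤ : Subgroup G)⁆ ≤ Subgroup.center G)
    (T : Set G) (hT : T.Finite) (hTM : T ⊆ M)
    (hM : M ≤ Subgroup.closure T ⊔ ⁅M, (⊤ : Subgroup G)⁆) :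
    (⁅M, (⊤ : Subgroup G)⁆).FG := by
  classical
  obtain ⟨S, hS⟩ := hG.out
  set D : Subgroup G := Subgroup.closure (Set.image2 (fun t s => ⁅t, s⁆) T (S : Set G)) with hD
  have hDfin : (Set.image2 (fun t s => ⁅t, s⁆) T (S : Set G)).Finite :=
    hT.image2 _ S.finite_toSet
  have hcent : ∀ m ∈ M, ∀ g : G, ⁅m, g⁆ ∈ Subgroup.center G := fun m hm g =>
    hc (Subgroup.commutator_mem_commutator hm (Subgroup.mem_top g))
  have hleD : D ≤ ⁅M, (⊤ : Subgroup G)⁆ := by
    rw [hD, Subgroup.closure_le]
    rintro _ ⟨t, ht, s, -, rfl⟩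
    exact Subgroup.commutator_mem_commutator (hTM ht) (Subgroup.mem_top s)
  have hmulR : ∀ m ∈ M, ∀ g h : G, ⁅m, g * h⁆ = ⁅m, g⁆ * ⁅m, h⁆ := by
    intro m hm g h
    have h1 := Subgroup.mem_center_iff.1 (hcent m hm h) g
    have h2 : ⁅m, g * h⁆ = ⁅m, g⁆ * (g * ⁅m, h⁆ * g⁻¹) := by
      simp only [commutatorElement_def]; group
    rw [h2, h1]; group
  have hmulL : ∀ m ∈ M, ∀ m' ∈ M, ∀ g : G, ⁅m * m', g⁆ = ⁅m, g⁆ * ⁅m', g⁆ := by
    intro m hm m' hm' g
    have h1 := Subgroup.mem_center_iff.1 (hcent m' hm' g) m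
    have h2 := Subgroup.mem_center_iff.1 (hcent m hm g) (⁅m', g⁆)
    have h3 : ⁅m * m', g⁆ = (m * ⁅m', g⁆ * m⁻¹) * ⁅m, g⁆ := by
      simp only [commutatorElement_def]; group
    rw [h3, h1, ← h2]; group
  have hstep1 : ∀ t ∈ T, ∀ g : G, ⁅t, g⁆ ∈ D := by
    intro t ht g
    have hg : g ∈ Subgroup.closure (S : Set G) := by rw [hS]; trivial
    induction hg using Subgroup.closure_induction with
    | mem x hx => exact Subgroup.subset_closure ⟨t, ht, x, hx, rfl⟩
    | one => simp
    | mul x y _ _ hx hy => rw [hmulR t (hTM ht)]; exact D.mul_mem hx hy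
    | inv x _ hx =>
      have h1 := hmulR t (hTM ht) x x⁻¹
      rw [mul_inv_cancel, commutatorElement_one_right] at h1
      have h2 : ⁅t, x⁻¹⁆ = (⁅t, x⁆)⁻¹ := (eq_inv_of_mul_eq_one_right h1.symm)
      rw [h2]; exact D.inv_mem hx
  have hstep2 : ∀ m ∈ M, ∀ g : G, ⁅m, g⁆ ∈ D := by
    intro m hm g
    have hTcl : Subgroup.closure T ≤ M := (Subgroup.closure_le _).2 hTM
    have hcl : ∀ y ∈ Subgroup.closure T, ⁅y, g⁆ ∈ D := by
      intro y hy
      induction hy using Subgroup.closure_induction with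
      | mem x hx => exact hstep1 x hx g
      | one => simp
      | mul x y hx' hy' hx hy =>
        rw [hmulL x (hTcl hx') y (hTcl hy')]; exact D.mul_mem hx hy
      | inv x hx' hx =>
        have h1 := hmulL x (hTcl hx') x⁻¹ (M.inv_mem (hTcl hx')) g
        rw [mul_inv_cancel, commutatorElement_one_left] at h1
        have h2 : ⁅x⁻¹, g⁆ = (⁅x, g⁆)⁻¹ := (eq_inv_of_mul_eq_one_right h1.symm)
        rw [h2]; exact D.inv_mem hx
    have hnorm : (⁅M, (⊤ : Subgroup G)⁆).Normal := by
      constructor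
      intro n hn g'
      have := Subgroup.mem_center_iff.1 (hc hn) g'
      rw [this]; simpa using hn
    obtain ⟨y, hy, z, hz, rfl⟩ := Subgroup.mem_sup_of_normal_right.1 (hM hm)
    have hzM : z ∈ M := by
      have h1 : y⁻¹ * (y * z) ∈ M := M.mul_mem (M.inv_mem (hTcl hy)) hm
      simpa using h1
    rw [hmulL y (hTcl hy) z hzM]
    have h2 : ⁅z, g⁆ = 1 := by
      rw [commutatorElement_eq_one_iff_mul_comm]
      exact (Subgroup.mem_center_iff.1 (hc hz) g).symm
    rw [h2, mul_one]
    exact hcl y hy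
  have hEq : ⁅M, (⊤ : Subgroup G)⁆ = D :=
    le_antisymm (Subgroup.commutator_le.2 fun m hm g _ => hstep2 m hm g) hleD
  rw [hEq, hD]
  exact ⟨hDfin.toFinset, by simp⟩

lemma NS_of_center {G : Type*} [Group G] (K : Subgroup G) (hK : K ≤ Subgroup.center G)
    (hfg : K.FG) : NS K := by
  let _ : CommGroup K :=
    { (inferInstance : Group K) with
      mul_comm := fun a b => Subtype.ext (by
        have := Subgroup.mem_center_iff.1 (hK a.2) b.1
        simpa using this.symm) }
  have : Group.FG K := (Group.fg_iff_subgroup_fg _).2 hfg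
  exact (NS_top_iff K).1 (NS_of_comm K)

theorem NS_top_of_nilpotent_fg (n : ℕ) : ∀ (G : Type u) [Group G], Group.FG G →
    (⊤ : Subgroup G).lowerCentralSeries (n + 1) = ⊥ → NS (⊤ : Subgroup G) := by
  induction n with
  | zero =>
    intro G _ hG h
    rw [Subgroup.lowerCentralSeries_succ, Subgroup.lowerCentralSeries_zero,
      Subgroup.commutator_top_right_eq_bot_iff_le_center] at h
    exact NS_of_center ⊤ h hG.out
  | succ n ih =>
    intro G _ hG h
    set Mn : Subgroup G := (⊤ : Subgroup G).lowerCentralSeries n with hMn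
    set Ln : Subgroup G := (⊤ : Subgroup G).lowerCentralSeries (n + 1) with hLn
    have hL : Ln = ⁅Mn, (⊤ : Subgroup G)⁆ := by rw [hLn, hMn, Subgroup.lowerCentralSeries_succ]
    have hLc : Ln ≤ Subgroup.center G := by
      rw [Subgroup.lowerCentralSeries_succ, Subgroup.commutator_top_right_eq_bot_iff_le_center] at h
      exact h
    have : Ln.Normal := by rw [hLn]; infer_instance
    have hq : NS (⊤ : Subgroup (G ⧸ Ln)) := by
      refine ih (G ⧸ Ln) inferInstance ?_
      have h1 := Subgroup.map_lowerCentralSeries (⊤ : Subgroup G) (QuotientGroup.mk' Ln) (n + 1)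
      rw [Subgroup.map_top_of_surjective _ (QuotientGroup.mk'_surjective Ln)] at h1
      rw [← h1, QuotientGroup.map_mk'_self]
    have hMfg : (Mn.map (QuotientGroup.mk' Ln)).FG := hq _ le_top
    have hLfg : Ln.FG := by
      obtain ⟨S, hS⟩ := hMfg
      have hSM : ∀ s ∈ S, ∃ k ∈ Mn, QuotientGroup.mk' Ln k = s := by
        intro s hs
        have : s ∈ Mn.map (QuotientGroup.mk' Ln) := by
          rw [← hS]; exact Subgroup.subset_closure hs
        exact this
      choose! k hk hfk using hSM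
      rw [hL]
      refine fg_commutator_central hG Mn (by rw [← hL]; exact hLc) (k '' (S : Set _))
        (S.finite_toSet.image _) ?_ ?_
      · rintro _ ⟨s, hs, rfl⟩; exact hk s hs
      · rw [← hL]
        intro m hm
        have h3 : QuotientGroup.mk' Ln m ∈
            (Subgroup.closure (k '' (S : Set _))).map (QuotientGroup.mk' Ln) := by
          rw [MonoidHom.map_closure]
          have h4 : QuotientGroup.mk' Ln m ∈ Subgroup.closure (S : Set (G ⧸ Ln)) := by
            rw [hS]; exact ⟨m, hm, rfl⟩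
          refine Subgroup.closure_mono ?_ h4
          intro s hs
          exact ⟨k s, ⟨s, hs, rfl⟩, hfk s hs⟩
        obtain ⟨d, hd, hfd⟩ := h3
        have h5 : d⁻¹ * m ∈ Ln := by
          rw [← QuotientGroup.eq]; exact hfd
        have : m = d * (d⁻¹ * m) := by group
        rw [this]
        exact Subgroup.mul_mem_sup hd h5
    refine NS_ext (QuotientGroup.mk' Ln) ⊤ ?_ ?_
    · exact hq.mono le_top
    · rw [QuotientGroup.ker_mk', top_inf_eq]
      exact NS_of_center Ln hLc hLfg

theorem NS_of_nilpotent_fg {G : Type u} [Group G] (H : Subgroup G) (hn : Group.IsNilpotent H)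
    (hfg : H.FG) : NS H := by
  rw [← NS_top_iff]
  obtain ⟨n, hn'⟩ := Subgroup.nilpotent_iff_lowerCentralSeries.1 hn
  refine NS_top_of_nilpotent_fg n H ((Group.fg_iff_subgroup_fg _).2 hfg) ?_
  rw [Subgroup.lowerCentralSeries_succ, hn', Subgroup.commutator_bot_left]

end Pool.Agent.Helper111.EN.NSc
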