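import Pool.Agent.H12.CSP.S.Helper111.EN.Defs
import Pool.Agent.H12.CSP.S.Helper111.EN.NS

/-!
# Engel groups: elementary facts on nilpotent groups

`center_root`: in a nilpotent group without `p`-torsion, `x ^ p` central implies `x` central.
`center_fg`: the centre of a finitely generated nilpotent group is finitely generated.
`resid_tors`, `finite_of_fg_nilpotent`: taken from `Pool/Agent/Helper601/TE/Yresid.lean`.
-/

set_option autoImplicit false

universe u v

open scoped commutatorElement

namespace Pool.Agent.Helper111.EN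

theorem IC_map {G : Type u} {K : Type v} [Group G] [Group K] (φ : G →* K) (c : ℕ) (f : ℕ → G) :
    φ (IC c f) = IC c (fun i => φ (f i)) := by
  induction c with
  | zero => rfl
  | succ c ih => simp only [IC, map_commutatorElement, ih]

theorem cm_map {G : Type u} {K : Type v} [Group G] [Group K] (φ : G →* K) (x y : G) :
    φ (cm x y) = cm (φ x) (φ y) := by
  simp [cm]

theorem eng_map {G : Type u} {K : Type v} [Group G] [Group K] (φ : G →* K) (n : ℕ) (x y : G) :
    φ (eng n x y) = eng n (φ x) (φ y) := by
  induction n with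
  | zero => rfl
  | succ n ih => simp only [eng, cm_map, ih]

theorem IsEngel.of_surjective {G : Type u} {K : Type v} [Group G] [Group K] (φ : G →* K)
    (hφ : Function.Surjective φ) (n : ℕ) (h : IsEngel n G) : IsEngel n K := by
  intro x y
  obtain ⟨a, rfl⟩ := hφ x
  obtain ⟨b, rfl⟩ := hφ y
  rw [← eng_map, h, map_one]

theorem IsEngel.of_injective {G : Type u} {K : Type v} [Group G] [Group K] (φ : G →* K)
    (hφ : Function.Injective φ) (n : ℕ) (h : IsEngel n K) : IsEngel n G := by
  intro x y
  apply hφ
  rw [eng_map, h, map_one]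

theorem IC_mono {G : Type u} [Group G] {c d : ℕ} (hcd : c ≤ d) (h : ∀ f : ℕ → G, IC c f = 1) :
    ∀ f : ℕ → G, IC d f = 1 := by
  induction d, hcd using Nat.le_induction with
  | base => exact h
  | succ d _ ih => intro f; simp only [IC, ih f, commutatorElement_one_left]

/-- the power commutes -/
theorem pow_comm_aux {G : Type*} [Group G] (y g c : G) (hc : ∀ x, c * x = x * c)
    (h : y * g = c * (g * y)) (n : ℕ) : y ^ n * g = c ^ n * (g * y ^ n) := by
  induction n with
  | zero => simp
  | succ n ih =>
    have hcn : ∀ x, c ^ n * x = x * c ^ n := fun x => (Commute.pow_left (hc x) n : _)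
    calc y ^ (n + 1) * g = y ^ n * (y * g) := by rw [pow_succ, mul_assoc]
      _ = y ^ n * (c * (g * y)) := by rw [h]
      _ = c * (y ^ n * g) * y := by
          rw [← mul_assoc (y ^ n) c, ← hc (y ^ n)]
          group
      _ = c * (c ^ n * (g * y ^ n)) * y := by rw [ih]
      _ = c ^ (n + 1) * (g * y ^ (n + 1)) := by
          rw [pow_succ' c, pow_succ y]
          group

/-- if the centre has no `p`-torsion, neither has the centre of `G/Z(G)` -/
theorem center_quot_tf {G : Type u} [Group G] (p : ℕ)
    (h : ∀ x ∈ Subgroup.center G, x ^ p = 1 → x = 1) (x : G)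
    (hx : ∀ g : G, x * g * (g * x)⁻¹ ∈ Subgroup.center G)
    (hp : x ^ p ∈ Subgroup.center G) : x ∈ Subgroup.center G := by
  rw [Subgroup.mem_center_iff]
  intro g
  have h1 : x * g = (x * g * (g * x)⁻¹) * (g * x) := by group
  have h2 := pow_comm_aux x g _ (fun y => (Subgroup.mem_center_iff.1 (hx g) y).symm) h1 p
  have h3 : x ^ p * g = g * x ^ p := (Subgroup.mem_center_iff.1 hp g).symm
  have h4 : (x * g * (g * x)⁻¹) ^ p = 1 := by
    rw [h3] at h2
    have := mul_eq_right.1 h2.symm
    exact this
  have h5 := h _ (hx g) h4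
  rw [mul_inv_eq_one] at h5
  exact h5.symm

theorem mem_center_quot_iff {G : Type u} [Group G] (x : G) :
    (QuotientGroup.mk' (Subgroup.center G) x ∈ Subgroup.center (G ⧸ Subgroup.center G)) →
      ∀ g : G, x * g * (g * x)⁻¹ ∈ Subgroup.center G := by
  intro hx g
  have h2 := (Subgroup.mem_center_iff.1 hx) (QuotientGroup.mk' (Subgroup.center G) g)
  rw [← map_mul, ← map_mul] at h2
  have h3 : (QuotientGroup.mk' (Subgroup.center G)) (x * g * (g * x)⁻¹) = 1 := by
    rw [map_mul, map_inv, h2, mul_inv_cancel]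
  rwa [← MonoidHom.mem_ker, QuotientGroup.ker_mk'] at h3

theorem mk_eq_one_iff {G : Type u} [Group G] (N : Subgroup G) [N.Normal] (x : G) :
    QuotientGroup.mk' N x = 1 ↔ x ∈ N := by
  rw [← MonoidHom.mem_ker, QuotientGroup.ker_mk']

theorem center_quot_tf' {G : Type u} [Group G] (p : ℕ)
    (h : ∀ x ∈ Subgroup.center G, x ^ p = 1 → x = 1) :
    ∀ x ∈ Subgroup.center (G ⧸ Subgroup.center G), x ^ p = 1 → x = 1 := by
  intro xb hxb hp
  obtain ⟨x, rfl⟩ := QuotientGroup.mk'_surjective (Subgroup.center G) xb
  rw [← map_pow, mk_eq_one_iff] at hp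
  rw [mk_eq_one_iff]
  exact center_quot_tf p h x (mem_center_quot_iff x hxb) hp

theorem tf_of_center (p : ℕ) (G : Type u) [Group G] [Group.IsNilpotent G] :
    (∀ x ∈ Subgroup.center G, x ^ p = 1 → x = 1) → ∀ x : G, x ^ p = 1 → x = 1 := by
  refine Group.nilpotent_center_quotient_ind (P := fun G _ _ =>
    (∀ x ∈ Subgroup.center G, x ^ p = 1 → x = 1) → ∀ x : G, x ^ p = 1 → x = 1) G ?_ ?_
  · intro G _ _ _ x _
    exact Subsingleton.elim _ _
  · intro G _ _ ih h x hx
    have h1 := ih (center_quot_tf' p h) (QuotientGroup.mk' _ x) (by rw [← map_pow, hx, map_one])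
    rw [mk_eq_one_iff] at h1
    exact h x h1 hx

theorem center_root {K : Type u} [Group K] [Group.IsNilpotent K] (p : ℕ)
    (h : ∀ x : K, x ^ p = 1 → x = 1) (x : K) (hx : x ^ p ∈ Subgroup.center K) :
    x ∈ Subgroup.center K := by
  have h1 := tf_of_center p (K ⧸ Subgroup.center K)
    (center_quot_tf' p (fun x _ => h x)) (QuotientGroup.mk' _ x)
    (by rw [← map_pow, mk_eq_one_iff]; exact hx)
  rwa [mk_eq_one_iff] at h1

theorem center_fg {K : Type u} [Group K] [hK : Group.IsNilpotent K] [hf : Group.FG K] :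
    (Subgroup.center K).FG := by
  have h := NSc.NS_of_nilpotent_fg (⊤ : Subgroup K) (Group.isNilpotent_top.2 hK) hf.out
  exact h _ le_top

/-- terms of the derived series of a finitely generated torsion group have finite index -/
theorem derivedSeries_finite_index (G : Type*) [Group G] [hG : Group.FG G]
    (h : ∀ g : G, IsOfFinOrder g) (n : ℕ) : (derivedSeries G n).FiniteIndex := by
  induction n with
  | zero =>
    rw [derivedSeries_zero]
    infer_instance
  | succ n ih =>
    set K := derivedSeries G n with hK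
    have hfg : Group.FG K := Subgroup.fg_of_index_ne_zero K
    have hfgab : Group.FG (Abelianization K) := QuotientGroup.fg _
    have htor : IsMulTorsion (Abelianization K) := by
      intro x
      obtain ⟨y, rfl⟩ := QuotientGroup.mk'_surjective _ x
      have h1 : IsOfFinOrder (y : G) := h y
      have h2 : IsOfFinOrder y := by
        exact Submonoid.isOfFinOrder_coe.mp h1
      exact MonoidHom.isOfFinOrder _ h2
    have hfin : Finite (Abelianization K) := CommGroup.finite_of_fg_isMulTorsion (G := Abelianization K) htor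
    have hidx : (commutator K).FiniteIndex := by
      have : Finite (K ⧸ commutator K) := hfin
      exact Subgroup.finiteIndex_of_finite_quotient
    rw [derivedSeries_succ, ← hK, ← Subgroup.map_subtype_commutator]
    constructor
    rw [Subgroup.index_map_subtype]
    exact mul_ne_zero hidx.index_ne_zero ih.index_ne_zero

/-- a finitely generated soluble torsion group is finite -/
theorem finite_of_fg_solvable_torsion (G : Type*) [Group G] [Group.FG G] [hs : Group.IsSolvable G]
    (h : ∀ g : G, IsOfFinOrder g) : Finite G := by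
  obtain ⟨n, hn⟩ := hs.solvable
  have := derivedSeries_finite_index G h n
  rw [hn] at this
  have h1 : Finite (G ⧸ (⊥ : Subgroup G)) := inferInstance
  exact Finite.of_injective (fun g : G => (QuotientGroup.mk g : G ⧸ (⊥ : Subgroup G))) (by
    intro a b hab
    simpa [QuotientGroup.eq, inv_mul_eq_one] using hab)

theorem finite_of_fg_nilpotent (G : Type u) [Group G] [Group.IsNilpotent G] [Group.FG G]
    (h : ∀ g : G, IsOfFinOrder g) : Finite G :=
  finite_of_fg_solvable_torsion G h

/-- torsion of the center gives torsion of the group -/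
theorem resid_tors_aux (q : ℕ) (hq : 0 < q) (G : Type u) [Group G] [Group.IsNilpotent G] :
    Group.FG G → (∀ x ∈ Subgroup.center G, ∃ e : ℕ, x ^ q ^ e = 1) →
      ∀ x : G, ∃ e : ℕ, x ^ q ^ e = 1 := by
  refine Group.nilpotent_center_quotient_ind (P := fun G _ _ => Group.FG G →
    (∀ x ∈ Subgroup.center G, ∃ e : ℕ, x ^ q ^ e = 1) → ∀ x : G, ∃ e : ℕ, x ^ q ^ e = 1) G ?_ ?_
  · intro G _ _ _ _ x
    exact ⟨0, Subsingleton.elim _ _⟩
  · intro G _ _ ih hFG hZ x
    obtain ⟨S, hS, hSf⟩ := Group.fg_iff.1 hFG
    have hFGq : Group.FG (G ⧸ Subgroup.center G) := QuotientGroup.fg _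
    have hcen : ∀ xb ∈ Subgroup.center (G ⧸ Subgroup.center G), ∃ e : ℕ, xb ^ q ^ e = 1 := by
      intro yb hyb
      obtain ⟨y, rfl⟩ := QuotientGroup.mk'_surjective (Subgroup.center G) yb
      have h1 : ∀ g : G, ∃ c ∈ Subgroup.center G, y * g = c * (g * y) := by
        intro g
        exact ⟨y * g * (g * y)⁻¹, mem_center_quot_iff y hyb g, by group⟩
      choose c hc hcy using h1
      have h2 : ∀ g : G, ∃ e : ℕ, (c g) ^ q ^ e = 1 := fun g => hZ _ (hc g)
      choose e he using h2
      obtain ⟨E, hE⟩ : ∃ E : ℕ, ∀ g ∈ S, e g ≤ E := by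
        refine ⟨hSf.toFinset.sup e, fun g hg => Finset.le_sup (hSf.mem_toFinset.2 hg)⟩
      refine ⟨E, ?_⟩
      have h3 : ∀ g ∈ S, y ^ q ^ E * g = g * y ^ q ^ E := by
        intro g hg
        have h4 := pow_comm_aux y g (c g) (fun x => (Subgroup.mem_center_iff.1 (hc g) x).symm)
          (hcy g) (q ^ E)
        have h5 : (c g) ^ q ^ E = 1 := by
          obtain ⟨d, hd⟩ := Nat.exists_eq_add_of_le (hE g hg)
          rw [hd, pow_add, pow_mul, he g, one_pow]
        rw [h4, h5, one_mul]
      have h6 : y ^ q ^ E ∈ Subgroup.center G := by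
        rw [Subgroup.mem_center_iff]
        intro g
        have hg : g ∈ Subgroup.closure S := by rw [hS]; trivial
        have hle : Subgroup.closure S ≤ Subgroup.centralizer {y ^ q ^ E} := by
          rw [Subgroup.closure_le]
          intro g hg
          rw [SetLike.mem_coe, Subgroup.mem_centralizer_singleton_iff]
          exact (h3 g hg).symm
        exact Subgroup.mem_centralizer_singleton_iff.1 (hle hg)
      rw [← map_pow]
      rwa [← QuotientGroup.ker_mk' (Subgroup.center G), MonoidHom.mem_ker] at h6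
    obtain ⟨e, he⟩ := ih hFGq hcen (QuotientGroup.mk' (Subgroup.center G) x)
    rw [← map_pow, ← MonoidHom.mem_ker, QuotientGroup.ker_mk'] at he
    obtain ⟨e', he'⟩ := hZ _ he
    exact ⟨e + e', by rw [pow_add, pow_mul, he']⟩

theorem resid_tors {G : Type u} [Group G] [Group.IsNilpotent G] [Group.FG G] (q : ℕ) (hq : 0 < q)
    (h : ∀ x ∈ Subgroup.center G, ∃ e : ℕ, x ^ q ^ e = 1) (x : G) : ∃ e : ℕ, x ^ q ^ e = 1 :=
  resid_tors_aux q hq G inferInstance h x

end Pool.Agent.Helper111.EN
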