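import Mathlib

/-!
# Engel groups, definitions

Definitions used for the problem `MP_cd48d2_al` (which primes have to be excluded to make
locally nilpotent `n`-Engel groups nilpotent).
-/

set_option autoImplicit false

universe u v

open scoped commutatorElement

namespace Pool.Agent.Helper111.EN

/-- the commutator `[x,y] = x⁻¹y⁻¹xy` -/
def cm {G : Type u} [Group G] (x y : G) : G := x⁻¹ * y⁻¹ * x * y

/-- the left-normed commutator `[x, y, ..., y]` with `n` copies of `y` -/
def eng {G : Type u} [Group G] : ℕ → G → G → G
  | 0, x, _ => x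
  | n + 1, x, y => cm (eng n x y) y

/-- `G` is `n`-Engel: `[x, y, ..., y] = 1` (`n` copies of `y`) for all `x, y` -/
def IsEngel (n : ℕ) (G : Type u) [Group G] : Prop := ∀ x y : G, eng n x y = 1

/-- `G` is locally nilpotent: every finitely generated subgroup is nilpotent -/
def LocNil (G : Type u) [Group G] : Prop := ∀ H : Subgroup G, H.FG → Group.IsNilpotent H

/-- `G` has no element of order `p` for any `p ∈ π` -/
def NoOrder (π : Set ℕ) (G : Type u) [Group G] : Prop := ∀ p ∈ π, ∀ g : G, orderOf g ≠ p

/-- `π` is sufficient for `n`: every locally nilpotent `n`-Engel group (in the universe `u`) that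
has no element of order `p` for any `p ∈ π` is nilpotent. -/
def Sufficient (n : ℕ) (π : Set ℕ) : Prop :=
  ∀ (G : Type u) [Group G], IsEngel n G → LocNil G → NoOrder π G → Group.IsNilpotent G

/-- all finite `n`-Engel `p`-groups have nilpotency class at most `t` -/
def ClassLE (n p t : ℕ) : Prop :=
  ∀ (Q : Type) [Group Q], Finite Q → IsPGroup p Q → IsEngel n Q → Group.nilpotencyClass Q ≤ t

/-- finite `n`-Engel `p`-groups have unbounded nilpotency class -/
def Unbounded (n p : ℕ) : Prop := ∀ t : ℕ, ¬ ClassLE n p t

/-- the left-normed commutator of `f 0, f 1, ..., f c` -/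
def IC {G : Type u} [Group G] : ℕ → (ℕ → G) → G
  | 0, f => f 0
  | c + 1, f => ⁅IC c f, f (c + 1)⁆

end Pool.Agent.Helper111.EN
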